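import Pool.Agent.H89.MC.Targets

/-!
# EQM, LIN, LPF: the limit law
-/

set_option autoImplicit false

namespace Pool.Agent.H62.MC

open Pool.Agent.H96.MC MeasureTheory ProbabilityTheory Filter

noncomputable section

lemma gen_cfg (d q : ℕ) : (MeasurableSpace.pi : MeasurableSpace (Cfg d q)) =
    MeasurableSpace.generateFrom {A : Set (Cfg d q) | IsClopen A} := by
  apply le_antisymm
  · refine iSup_le fun x => ?_
    rintro s ⟨S, _, rfl⟩
    exact MeasurableSpace.measurableSet_generateFrom
      ((isClopen_discrete S).preimage (continuous_apply x))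
  · refine MeasurableSpace.generateFrom_le fun A hA => ?_
    exact IsOpen.measurableSet (IsClopen.isOpen hA)

lemma gen_XX (d q : ℕ) : (Prod.instMeasurableSpace : MeasurableSpace (XX d q)) =
    MeasurableSpace.generateFrom {A : Set (XX d q) | IsClopen A} := by
  apply le_antisymm
  · refine sup_le ?_ ?_
    · rw [MeasurableSpace.comap_le_iff_le_map]
      refine iSup_le fun x => ?_
      rintro s ⟨S, _, rfl⟩
      exact MeasurableSpace.measurableSet_generateFrom
        ((isClopen_discrete S).preimage ((continuous_apply x).comp continuous_fst))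
    · rw [MeasurableSpace.comap_le_iff_le_map]
      refine iSup_le fun x => ?_
      rintro s ⟨S, _, rfl⟩
      exact MeasurableSpace.measurableSet_generateFrom
        ((isClopen_discrete S).preimage ((continuous_apply x).comp continuous_snd))
  · refine MeasurableSpace.generateFrom_le fun A hA => ?_
    exact IsOpen.measurableSet (IsClopen.isOpen hA)

/-- EQM. -/
theorem eqm : T_EQM := by
  intro d q
  refine ⟨?_, ?_⟩
  · intro μ ν _ _ h
    refine ext_of_generate_finite _ (gen_XX d q) ?_ (fun A hA => h A hA) (by simp)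
    intro A hA B hB _
    exact IsClopen.inter hA hB
  · intro μ ν _ _ h
    refine ext_of_generate_finite _ (gen_cfg d q) ?_ (fun A hA => h A hA) (by simp)
    intro A hA B hB _
    exact IsClopen.inter hA hB

/-- LIN. -/
theorem lin (h1 : T_SHX) (h2 : T_EQM) : T_LIN := by
  intro d q D U μ ν hlim hfst hinv
  obtain ⟨hU, hμ, hν, hA⟩ := hlim
  haveI := hν
  refine ⟨?_, ?_⟩
  · haveI : IsProbabilityMeasure (ν.map Prod.fst) :=
      Measure.isProbabilityMeasure_map measurable_fst.aemeasurable
    haveI : IsProbabilityMeasure (pois D d) := by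
      rw [← hfst 0]
      haveI := hμ 0
      exact Measure.isProbabilityMeasure_map measurable_fst.aemeasurable
    refine (h2 d q).2 _ _ inferInstance inferInstance fun A hAc => ?_
    have hm : MeasurableSet A := IsOpen.measurableSet hAc.isOpen
    rw [Measure.map_apply measurable_fst hm]
    have ht := hA (Prod.fst ⁻¹' A) (hAc.preimage continuous_fst)
    have hc : (fun J => μ J (Prod.fst ⁻¹' A)) = fun _ => pois D d A := by
      funext J
      rw [← Measure.map_apply measurable_fst hm, hfst J]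
    rw [hc] at ht
    exact tendsto_nhds_unique ht tendsto_const_nhds
  · intro c
    have hcont := (h1 d q).1 c
    have hmeas : Measurable (shX (q := q) c) := hcont.measurable
    haveI : IsProbabilityMeasure (ν.map (shX c)) :=
      Measure.isProbabilityMeasure_map hmeas.aemeasurable
    have key : ∀ A : Set (XX d q), IsClopen A → ν (shX c ⁻¹' A) ≤ ν A := by
      intro A hAc
      refine ENNReal.le_of_forall_pos_le_add fun ε hε _ => ?_
      have t1 := hA (shX c ⁻¹' A) (hAc.preimage hcont)
      have t2 := (hA A hAc).add (tendsto_const_nhds (x := ENNReal.ofReal ε))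
      rw [ENNReal.ofReal_coe_nnreal] at t2
      refine le_of_tendsto_of_tendsto t1 t2 ?_
      have := (hinv c ε (by exact_mod_cast hε)).filter_mono hU
      filter_upwards [this] with J hJ
      have := hJ A (IsOpen.measurableSet hAc.isOpen)
      rwa [ENNReal.ofReal_coe_nnreal] at this
    refine (h2 d q).1 _ _ inferInstance inferInstance fun A hAc => ?_
    have hm : MeasurableSet A := IsOpen.measurableSet hAc.isOpen
    rw [Measure.map_apply hmeas hm]
    refine le_antisymm (key A hAc) ?_
    by_contra hlt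
    rw [not_le] at hlt
    have k2 := key Aᶜ hAc.compl
    have e1 : ν A + ν Aᶜ = 1 := prob_add_prob_compl hm
    have e2 : ν (shX c ⁻¹' A) + ν (shX c ⁻¹' Aᶜ) = 1 := by
      rw [Set.preimage_compl]
      exact prob_add_prob_compl (hmeas hm)
    have : ν (shX c ⁻¹' A) + ν (shX c ⁻¹' Aᶜ) < ν A + ν Aᶜ :=
      ENNReal.add_lt_add_of_lt_of_le (measure_ne_top _ _) hlt k2
    rw [e1, e2] at this
    exact lt_irrefl _ this

/-- LPF. -/
theorem lpf (h : T_CLO) : T_LPF := by
  intro d q V U μ ν hlim hmat hemp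
  obtain ⟨hU, hμ, hν, hA⟩ := hlim
  obtain ⟨c1, c2, -⟩ := h d q V
  -- clopen sets of non-matchings are null
  have key : ∀ A : Set (XX d q), IsClopen A → (∀ ω ∈ A, ¬ IsMat V ω) → ∀ᵐ ω ∂ν, ω ∉ A := by
    intro A hAc hsub
    have ht := hA A hAc
    have hc : (fun J => μ J A) = fun _ => 0 := by
      funext J
      have := hmat J
      rw [ae_iff] at this
      exact measure_mono_null hsub this
    rw [hc] at ht
    have := tendsto_nhds_unique ht tendsto_const_nhds
    rw [ae_iff]
    simpa using this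
  have hA' : ∀ᵐ ω ∂ν, ∀ x : Pt d q, ¬ (x.2 < ω.1 x.1 ∧ ω.2 x = ∅) := by
    rw [ae_all_iff]
    intro x
    have hcl : IsClopen {ω : XX d q | x.2 < ω.1 x.1 ∧ ω.2 x = ∅} :=
      (c1 x.1 {n | x.2 < n}).inter (c2 x {∅})
    have ht := hA _ hcl
    have := tendsto_nhds_unique ht ((hemp x).mono_left hU)
    rw [ae_iff]
    simpa using this
  have hB : ∀ᵐ ω ∂ν, ∀ (x : Pt d q) (F : Finset (Pt d q)), F.Nonempty → ¬ (x ∈ F ∧ ltype F ∈ V) →
      ω.2 x ≠ F := by
    rw [ae_all_iff]
    intro x
    rw [ae_all_iff]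
    intro F
    by_cases hF : F.Nonempty ∧ ¬ (x ∈ F ∧ ltype F ∈ V)
    · have := key {ω | ω.2 x ∈ ({F} : Set (Finset (Pt d q)))} (c2 x {F}) (by
        intro ω hω hm
        have hω' : ω.2 x = F := hω
        have := hm x (by rw [hω']; exact hF.1)
        rw [hω'] at this
        exact hF.2 ⟨this.1, this.2.1⟩)
      filter_upwards [this] with ω hω _ _ he
      exact hω he
    · filter_upwards with ω h1 h2
      exact absurd ⟨h1, h2⟩ hF
  have hC : ∀ᵐ ω ∂ν, ∀ (x y : Pt d q) (F G : Finset (Pt d q)), y ∈ F → G ≠ F →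
      ¬ (ω.2 x = F ∧ ω.2 y = G) := by
    rw [ae_all_iff]
    intro x
    rw [ae_all_iff]
    intro y
    rw [ae_all_iff]
    intro F
    rw [ae_all_iff]
    intro G
    by_cases hF : y ∈ F ∧ G ≠ F
    · have := key ({ω | ω.2 x ∈ ({F} : Set (Finset (Pt d q)))} ∩
        {ω | ω.2 y ∈ ({G} : Set (Finset (Pt d q)))}) ((c2 x {F}).inter (c2 y {G})) (by
        rintro ω ⟨hω, hω2⟩ hm
        have hω' : ω.2 x = F := hω
        have hω2' : ω.2 y = G := hω2
        have := (hm x (by rw [hω']; exact ⟨y, hF.1⟩)).2.2 y (by rw [hω']; exact hF.1)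
        rw [hω', hω2'] at this
        exact hF.2 this.1)
      filter_upwards [this] with ω hω _ _ he
      exact hω he
    · filter_upwards with ω h1 h2
      exact absurd ⟨h1, h2⟩ hF
  have hD : ∀ᵐ ω ∂ν, ∀ (x y : Pt d q) (F : Finset (Pt d q)) (k : ℕ), y ∈ F → k ≤ y.2 →
      ¬ (ω.2 x = F ∧ ω.1 y.1 = k) := by
    rw [ae_all_iff]
    intro x
    rw [ae_all_iff]
    intro y
    rw [ae_all_iff]
    intro F
    rw [ae_all_iff]
    intro k
    by_cases hF : y ∈ F ∧ k ≤ y.2
    · have := key ({ω | ω.2 x ∈ ({F} : Set (Finset (Pt d q)))} ∩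
        {ω | ω.1 y.1 ∈ ({k} : Set ℕ)}) ((c2 x {F}).inter (c1 y.1 {k})) (by
        rintro ω ⟨hω, hω2⟩ hm
        have hω' : ω.2 x = F := hω
        have hω2' : ω.1 y.1 = k := hω2
        have := (hm x (by rw [hω']; exact ⟨y, hF.1⟩)).2.2 y (by rw [hω']; exact hF.1)
        rw [hω2'] at this
        exact absurd this.2 (by omega))
      filter_upwards [this] with ω hω _ _ he
      exact hω he
    · filter_upwards with ω h1 h2
      exact absurd ⟨h1, h2⟩ hF
  filter_upwards [hA', hB, hC, hD] with ω a b c e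
  refine ⟨?_, ?_⟩
  · intro x hx
    have hb : x ∈ ω.2 x ∧ ltype (ω.2 x) ∈ V := by
      by_contra hn
      exact b x (ω.2 x) hx hn rfl
    refine ⟨hb.1, hb.2, ?_⟩
    intro y hy
    refine ⟨?_, ?_⟩
    · by_contra hn
      exact c x y (ω.2 x) (ω.2 y) hy hn ⟨rfl, rfl⟩
    · by_contra hn
      exact e x y (ω.2 x) (ω.1 y.1) hy (by omega) ⟨rfl, rfl⟩
  · intro x hx
    rw [Finset.nonempty_iff_ne_empty]
    intro he
    exact a x ⟨hx, he⟩

end

end Pool.Agent.H62.MC
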