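import Pool.Agent.H96.MC.Targets
import Pool.Agent.H96.MC.Targets2

/-!
# FMEAS, INDEP, WINP: events determined by finitely many counts
-/

set_option autoImplicit false

namespace Pool.Agent.H62.MC

open Pool.Agent.H96.MC MeasureTheory ProbabilityTheory

noncomputable section

/-- The set of restrictions of a finitely determined event. -/
lemma eq_preimage {d q : ℕ} (W : Finset (CC d q)) (S : Set (Cfg d q)) (hS : DetBy W S) :
    ∃ A : Set (W → ℕ), S = (fun n : Cfg d q => fun x : W => n x.1) ⁻¹' A := by
  refine ⟨(fun n : Cfg d q => fun x : W => n x.1) '' S, ?_⟩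
  ext n
  constructor
  · intro h
    exact ⟨n, h, rfl⟩
  · rintro ⟨n', h', he⟩
    refine (hS n n' ?_).2 h'
    intro x hx
    exact (congrFun he ⟨x, hx⟩).symm

lemma meas_rho {d q : ℕ} (W : Finset (CC d q)) :
    Measurable (fun n : Cfg d q => fun x : W => n x.1) :=
  measurable_pi_iff.2 fun x => measurable_pi_apply _

/-- FMEAS. -/
theorem fmeas : T_FMEAS := by
  intro d q W S hS
  obtain ⟨A, rfl⟩ := eq_preimage W S hS
  exact meas_rho W (Set.to_countable _).measurableSet

instance instPM {d q : ℕ} (D : Dat q) (x : CC d q) :
    IsProbabilityMeasure (poissonMeasure ⟨D.lam x.2, (D.pos x.2).le⟩) := by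
  have : ∀ r : NNReal, IsProbabilityMeasure (poissonMeasure r) := fun r => inferInstance
  exact this _

/-- INDEP. -/
theorem indep (h : T_FMEAS) : T_INDEP := by
  classical
  intro d q D ι I W S
  have hind : iIndepFun (fun (x : CC d q) (n : Cfg d q) => n x) (pois D d) := by
    have := iIndepFun_infinitePi (P := fun x : CC d q =>
      poissonMeasure ⟨D.lam x.2, (D.pos x.2).le⟩) (X := fun _ => id) (fun _ => measurable_id)
    exact this
  induction I using Finset.induction_on with
  | empty =>
    intro _ _
    haveI : IsProbabilityMeasure (pois D d) := by unfold pois; infer_instance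
    simp
  | insert b I hb ih =>
    intro hS hW
    rw [Finset.prod_insert hb, ← ih (fun a ha => hS a (Finset.mem_insert_of_mem ha))
      (fun a ha c hc hac => hW a (Finset.mem_insert_of_mem ha) c (Finset.mem_insert_of_mem hc) hac)]
    have e : (⋂ a ∈ insert b I, S a) = S b ∩ ⋂ a ∈ I, S a := by
      simp [Set.iInter_iInter_eq_or_left]
    rw [e]
    have hdet : DetBy (I.biUnion W) (⋂ a ∈ I, S a) := by
      intro n n' hn
      simp only [Set.mem_iInter]
      refine forall₂_congr fun a ha => ?_
      exact hS a (Finset.mem_insert_of_mem ha) n n'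
        (fun x hx => hn x (Finset.mem_biUnion.2 ⟨a, ha, hx⟩))
    have hdis : Disjoint (W b) (I.biUnion W) := by
      rw [Finset.disjoint_biUnion_right]
      intro a ha
      refine hW b (Finset.mem_insert_self b I) a (Finset.mem_insert_of_mem ha) ?_
      rintro rfl
      exact hb ha
    have hi := hind.indepFun_finset (W b) (I.biUnion W) hdis (fun x => measurable_pi_apply x)
    obtain ⟨A, hA⟩ := eq_preimage (W b) (S b) (hS b (Finset.mem_insert_self b I))
    obtain ⟨B, hB⟩ := eq_preimage (I.biUnion W) _ hdet
    rw [hA, hB]
    exact hi.measure_inter_preimage_eq_mul A B (Set.to_countable _).measurableSet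
      (Set.to_countable _).measurableSet

/-- WINP. -/
theorem winp (h : T_PLM) : T_WINP := by
  intro d q D L W Z hL
  have h1 := h W inferInstance (fun x : W => D.lam x.1.2) L Z (fun x => D.pos _) hL
  rw [← h1]
  have h2 := MeasureTheory.Measure.infinitePi_map_restrict
    (fun x : CC d q => poissonMeasure (D.lam x.2 * L).toNNReal) (I := W)
  rw [← h2, Measure.map_apply (Finset.measurable_restrict W) (Set.to_countable _).measurableSet]
  rfl

end

end Pool.Agent.H62.MC
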