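import Pool.Agent.H96.MC.Targets2

/-!
# LBL: labelled matchings from patterns
-/

set_option autoImplicit false

namespace Pool.Agent.H62.MC

open Pool.Agent.H96.MC

noncomputable section

open Classical in
/-- The block of labels used by the pattern `u` above the labels used by `s`. -/
def Gset {d q : ℕ} (s u : Pat d q) : Finset (Pt d q) :=
  u.support.biUnion fun y => (Finset.Ico (s y) (s y + u y)).image fun t => (y, t)

lemma mem_Gset {d q : ℕ} (s u : Pat d q) (x : Pt d q) :
    x ∈ Gset s u ↔ s x.1 ≤ x.2 ∧ x.2 < s x.1 + u x.1 := by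
  obtain ⟨c, k⟩ := x
  simp only [Gset, Finset.mem_biUnion, Finsupp.mem_support_iff, Finset.mem_image,
    Finset.mem_Ico, Prod.mk.injEq]
  constructor
  · rintro ⟨y, _, t, ht, rfl, rfl⟩
    exact ht
  · intro h
    exact ⟨c, by omega, k, h, rfl, rfl⟩

lemma ltype_Gset {d q : ℕ} (s u : Pat d q) : ltype (Gset s u) = tot u := by
  classical
  funext i
  unfold ltype tot
  rw [Finset.card_eq_sum_card_fiberwise (f := fun x : Pt d q => x.1) (t := u.support)]
  · unfold Finsupp.sum
    refine Finset.sum_congr rfl fun y hy => ?_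
    change _ = if y.2 = i then u y else 0
    by_cases hyi : y.2 = i
    · rw [if_pos hyi]
      have : Finset.filter (fun x : Pt d q => x.1 = y)
          (Finset.filter (fun x : Pt d q => x.1.2 = i) (Gset s u)) =
          (Finset.Ico (s y) (s y + u y)).image fun t => (y, t) := by
        ext x
        obtain ⟨c, k⟩ := x
        simp only [Finset.mem_filter, mem_Gset, Finset.mem_image, Finset.mem_Ico, Prod.mk.injEq]
        constructor
        · rintro ⟨⟨h1, h2⟩, rfl⟩
          exact ⟨k, h1, rfl, rfl⟩
        · rintro ⟨t, ht, rfl, rfl⟩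
          exact ⟨⟨ht, hyi⟩, rfl⟩
      rw [this, Finset.card_image_of_injective _ (fun a b h => by simpa using h), Nat.card_Ico]
      omega
    · rw [if_neg hyi, Finset.card_eq_zero]
      ext x
      obtain ⟨c, k⟩ := x
      simp only [Finset.mem_filter, Finset.notMem_empty, iff_false, not_and]
      rintro ⟨_, h⟩ rfl
      exact hyi h
  · intro x hx
    have hx' : x ∈ Gset s u := by
      have h2 := hx
      simp only [Finset.coe_filter, Set.mem_setOf_eq] at h2
      exact h2.1
    rw [mem_Gset] at hx'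
    simp only [Finset.mem_coe, Finsupp.mem_support_iff]
    omega

lemma lbl_aux {d q : ℕ} (V : Finset (Fin q → ℕ)) (μ : Multiset (Pat d q)) :
    (∀ u ∈ μ, tot u ∈ V) → ∃ F : Pt d q → Finset (Pt d q),
      (∀ x, (F x).Nonempty → x ∈ F x ∧ ltype (F x) ∈ V ∧ ∀ y ∈ F x, F y = F x) ∧
      (∀ x, (F x).Nonempty ↔ x.2 < μ.sum x.1) ∧
      ∀ x, (F x).Nonempty → ∃ u ∈ μ, x.1 ∈ u.support ∧ ∀ y ∈ F x, y.1 ∈ u.support := by
  classical
  induction μ using Multiset.induction_on with
  | empty =>
    intro _
    exact ⟨fun _ => ∅, by simp, by simp, by simp⟩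
  | cons u μ ih =>
    intro hV
    obtain ⟨F, h1, h2, h3⟩ := ih (fun v hv => hV v (Multiset.mem_cons_of_mem hv))
    have hs : ∀ x : Pt d q, (u ::ₘ μ).sum x.1 = u x.1 + μ.sum x.1 := by
      intro x
      rw [Multiset.sum_cons]
      rfl
    refine ⟨fun x => if x ∈ Gset μ.sum u then Gset μ.sum u else F x, ?_, ?_, ?_⟩
    · intro x hx
      by_cases hG : x ∈ Gset μ.sum u
      · simp only [if_pos hG]
        refine ⟨hG, ?_, ?_⟩
        · rw [ltype_Gset]
          exact hV u (Multiset.mem_cons_self u μ)
        · intro y hy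
          rw [if_pos hy]
      · simp only [if_neg hG] at hx ⊢
        obtain ⟨a, b, c⟩ := h1 x hx
        refine ⟨a, b, ?_⟩
        intro y hy
        have hy1 : F y = F x := c y hy
        have hy2 : y.2 < μ.sum y.1 := (h2 y).1 (by rw [hy1]; exact hx)
        have hy3 : y ∉ Gset μ.sum u := by
          rw [mem_Gset]
          omega
        rw [if_neg hy3, hy1]
    · intro x
      by_cases hG : x ∈ Gset μ.sum u
      · simp only [if_pos hG]
        rw [hs]
        have := (mem_Gset μ.sum u x).1 hG
        exact ⟨fun _ => by omega, fun _ => ⟨x, hG⟩⟩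
      · simp only [if_neg hG]
        rw [h2, hs]
        rw [mem_Gset] at hG
        omega
    · intro x hx
      by_cases hG : x ∈ Gset μ.sum u
      · simp only [if_pos hG]
        refine ⟨u, Multiset.mem_cons_self u μ, ?_, ?_⟩
        · rw [mem_Gset] at hG
          rw [Finsupp.mem_support_iff]
          omega
        · intro y hy
          rw [mem_Gset] at hy
          rw [Finsupp.mem_support_iff]
          omega
      · simp only [if_neg hG] at hx ⊢
        obtain ⟨v, hv, hv2⟩ := h3 x hx
        exact ⟨v, Multiset.mem_cons_of_mem hv, hv2⟩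

/-- LBL. -/
theorem lbl : T_LBL := by
  intro d q V n μ hle hu
  obtain ⟨F, h1, h2, h3⟩ := lbl_aux V μ (fun u hu' => (hu u hu').2)
  refine ⟨F, ?_, h2, h3⟩
  intro x hx
  obtain ⟨a, b, c⟩ := h1 x hx
  refine ⟨a, b, ?_⟩
  intro y hy
  refine ⟨c y hy, ?_⟩
  have : y.2 < μ.sum y.1 := (h2 y).1 (by rw [c y hy]; exact hx)
  exact lt_of_lt_of_le this (hle y.1)

end

end Pool.Agent.H62.MC
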